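import Mathlib
import Pool.Agent.R736.SK.Core

set_option autoImplicit false

/-! # A closed subspace of `FS(P)` without canonical clopen selector

`P` is the disjoint sum of three copies of `ω₁`, so `FS(P)` is `(ω₁+1)^3`, and the closed subspace is
`{(a,b,ω₁) : a ≤ b ≤ ω₁} ∪ {(a,a,c) : a ≤ c ≤ ω₁}`. -/

open Ordinal Set Order Topology

namespace Pool.Agent.Results.MP_87b039_gt.ThreeCopiesOfOmegaOne

open Pool.Agent.R736.SK

/-- The disjoint sum of three (pairwise incomparable) copies of `ω₁`. -/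
abbrev P3 : Type := Σ _ : Fin 3, (ω₁ : Ordinal.{0}).ToType

/-- the ordinal of an element of `ω₁` -/
noncomputable def od (ξ : (ω₁ : Ordinal.{0}).ToType) : Ordinal.{0} := (ToType.mk.symm ξ).1

theorem od_lt (ξ : (ω₁ : Ordinal.{0}).ToType) : od ξ < ω₁ := (ToType.mk.symm ξ).2

theorem od_le_od {ξ η : (ω₁ : Ordinal.{0}).ToType} : od ξ ≤ od η ↔ ξ ≤ η := by
  rw [od, od, Subtype.coe_le_coe, OrderIso.le_iff_le]

theorem od_surj {a : Ordinal.{0}} (ha : a < ω₁) : ∃ ξ, od ξ = a := by
  refine ⟨ToType.mk ⟨a, ha⟩, ?_⟩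
  rw [od, OrderIso.symm_apply_apply]

theorem narrow_P3 : Narrow P3 := by
  intro s hs
  refine Set.Finite.of_finite_image (f := Sigma.fst) (Set.toFinite _) ?_
  rintro ⟨i, ξ⟩ hx ⟨j, η⟩ hy (hij : i = j)
  subst hij
  by_contra hne
  rcases le_total ξ η with h1 | h1
  · exact hs hx hy hne (Sigma.mk_le_mk_iff.2 h1)
  · exact hs hy hx (Ne.symm hne) (Sigma.mk_le_mk_iff.2 h1)

theorem scattered_P3 : OrderScattered P3 := by
  refine ⟨fun f => ?_⟩
  have hm : StrictMono (fun x : P3 => x.2) := by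
    rintro ⟨i, ξ⟩ ⟨j, η⟩ hlt
    obtain ⟨_, _, _, h1⟩ := hlt
    exact h1
  have hm2 : StrictMono (fun q : ℚ => (f q).2) := hm.comp f.strictMono
  have : WellFoundedLT ℚ := hm2.wellFoundedLT
  have hanti : StrictAnti (fun n : ℕ => (-(n : ℚ))) := fun a b hab => by
    simpa using hab
  obtain ⟨n, hn⟩ := WellFounded.has_min (wellFounded_lt : WellFounded ((· < ·) : ℚ → ℚ → Prop))
    (Set.range (fun n : ℕ => (-(n : ℚ)))) (Set.range_nonempty _)
  obtain ⟨⟨k, rfl⟩, hmin⟩ := hn
  exact hmin _ ⟨k + 1, rfl⟩ (hanti (Nat.lt_succ_self k))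

/-- the `i`-th coordinate -/
noncomputable def crd (p : Ordinal.{0} × Ordinal.{0} × Ordinal.{0}) : Fin 3 → Ordinal.{0} :=
  ![p.1, p.2.1, p.2.2]

theorem crd_continuous (i : Fin 3) : Continuous (fun p => crd p i) := by
  fin_cases i
  · exact continuous_fst
  · exact continuous_fst.comp continuous_snd
  · exact continuous_snd.comp continuous_snd

theorem crd_le {p : Ordinal.{0} × Ordinal.{0} × Ordinal.{0}} (hp : p ∈ K0) (i : Fin 3) :
    crd p i ≤ ω₁ := by
  rcases hp with ⟨h1, h2, h3⟩ | ⟨h1, h2, h3⟩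
  · fin_cases i
    · exact h1.trans h2
    · exact h2
    · exact h3.le
  · fin_cases i
    · exact h1.le.trans (h2.trans h3)
    · exact h2.trans h3
    · exact h3

noncomputable def Phi (p : K0) : FS P3 :=
  ⟨fun x => decide (crd p.1 x.1 ≤ od x.2), by
    rintro ⟨i, ξ⟩ ⟨j, η⟩ hle h1
    obtain ⟨_, _, _, h2⟩ := hle
    rw [decide_eq_true_eq] at h1 ⊢
    exact h1.trans (od_le_od.2 h2)⟩

theorem continuous_Phi : Continuous Phi := by
  refine Continuous.subtype_mk (continuous_pi fun x => ?_) _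
  have h1 : Continuous (fun a : Ordinal.{0} => decide (a ≤ od x.2)) := by
    rw [continuous_bool_rng true]
    have h2 : (fun a : Ordinal.{0} => decide (a ≤ od x.2)) ⁻¹' {true} = Set.Iio (od x.2 + 1) := by
      ext a
      simp [Order.lt_add_one_iff]
    have h3 : (fun a : Ordinal.{0} => decide (a ≤ od x.2)) ⁻¹' {true} = Set.Iic (od x.2) := by
      ext a
      simp
    exact ⟨h3 ▸ isClosed_Iic, h2 ▸ isOpen_Iio⟩
  exact h1.comp ((crd_continuous x.1).comp continuous_subtype_val)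

theorem injective_Phi : Function.Injective Phi := by
  intro p q hpq
  have key : ∀ i, crd p.1 i = crd q.1 i := by
    intro i
    have h1 : ∀ ξ, (crd p.1 i ≤ od ξ ↔ crd q.1 i ≤ od ξ) := by
      intro ξ
      have := congrFun (congrArg Subtype.val hpq) ⟨i, ξ⟩
      simpa [Phi] using this
    by_contra hne
    rcases lt_or_gt_of_ne hne with h2 | h2
    · obtain ⟨ξ, hξ⟩ := od_surj (lt_of_lt_of_le h2 (crd_le q.2 i))
      exact not_le.2 h2 (hξ ▸ (h1 ξ).1 hξ.ge)
    · obtain ⟨ξ, hξ⟩ := od_surj (lt_of_lt_of_le h2 (crd_le p.2 i))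
      exact not_le.2 h2 (hξ ▸ (h1 ξ).2 hξ.ge)
  apply Subtype.ext
  ext1
  · exact key 0
  · ext1
    · exact key 1
    · exact key 2

theorem isClosed_K0 : IsClosed K0 := by
  have c1 : Continuous (fun p : Ordinal.{0} × Ordinal.{0} × Ordinal.{0} => p.1) := continuous_fst
  have c2 : Continuous (fun p : Ordinal.{0} × Ordinal.{0} × Ordinal.{0} => p.2.1) :=
    continuous_fst.comp continuous_snd
  have c3 : Continuous (fun p : Ordinal.{0} × Ordinal.{0} × Ordinal.{0} => p.2.2) :=
    continuous_snd.comp continuous_snd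
  exact ((isClosed_le c1 c2).inter ((isClosed_le c2 continuous_const).inter
    (isClosed_eq c3 continuous_const))).union
    ((isClosed_eq c1 c2).inter ((isClosed_le c2 c3).inter (isClosed_le c3 continuous_const)))

theorem isCompact_K0 : IsCompact K0 := by
  have h1 : IsCompact (Set.Icc (0 : Ordinal.{0}) ω₁) := isCompact_Icc
  refine (h1.prod (h1.prod h1)).of_isClosed_subset isClosed_K0 ?_
  intro p hp
  exact ⟨⟨zero_le, crd_le hp 0⟩, ⟨zero_le, crd_le hp 1⟩, ⟨zero_le, crd_le hp 2⟩⟩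

/-- For `P` the disjoint sum of three copies of `ω₁` (a narrow order-scattered poset), some closed
(scattered) subspace `K` of `FS(P)` admits no canonical clopen selector. -/
theorem result : Narrow P3 ∧ OrderScattered P3 ∧ ∃ K : Set (FS P3), IsClosed K ∧
    (∀ x : K, ∃ α : Ordinal.{0}, x ∈ cb K α ∧ x ∉ cb K (α + 1)) ∧ ¬ CanonicallySkula K := by
  have : CompactSpace K0 := isCompact_iff_compactSpace.1 isCompact_K0
  have hce := continuous_Phi.isClosedEmbedding injective_Phi
  refine ⟨narrow_P3, scattered_P3, Set.range Phi, hce.isClosed_range, ?_, ?_⟩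
  · exact fun x => height hce.isEmbedding.toHomeomorph x
  · exact core hce.isEmbedding.toHomeomorph

end Pool.Agent.Results.MP_87b039_gt.ThreeCopiesOfOmegaOne
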